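import Pool.Agent.Helper672.Blum.Defs

/-!
Kleene's `O` relative to a real, functionals which clarify the well-orderings, and continuous and
Borel reducibility of functionals.
-/

namespace Pool.Agent.Q205.KO

open Pool.Agent.Helper672.Blum

/-- The relation on `ℕ` with atomic diagram `x`. -/
def rel (x : ℕ → Bool) (m n : ℕ) : Prop := x (Nat.pair m n) = true

/-- The well-orderings with domain `ℕ`. -/
def W : Set (ℕ → Bool) := {x | IsWellOrder ℕ (rel x)}

/-- The join of two reals. -/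
def join (x y : ℕ → Bool) : ℕ → Bool := fun n => if n % 2 = 0 then x (n / 2) else y (n / 2)

/-- A real as an oracle. -/
def oracle (x : ℕ → Bool) : ℕ →. ℕ := fun n => Part.some (x n).toNat

/-- The functional `F` clarifies the class of the countable well-orderings: for isomorphic
well-orderings `A`, `B` with domain `ℕ` some isomorphism is computable from `F A ⊕ F B`. -/
def Clarifies (F : (ℕ → Bool) → (ℕ → Bool)) : Prop :=
  ∀ A ∈ W, ∀ B ∈ W, Nonempty (rel A ≃r rel B) →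
    ∃ i : rel A ≃r rel B, TuringReducible (fun n => Part.some (i n)) (oracle (join (F A) (F B)))

/-- `φ` is an acceptable numbering of the partial recursive functionals `Ψ(X; n)`; the partial
function with index `e` relative to the real `X` is `φ e X`. -/
structure Acceptable (φ : ℕ → (ℕ → Bool) → ℕ →. ℕ) : Prop where
  universal : OPartrec (fun X n => φ n.unpair.1 X n.unpair.2)
  smn : ∀ Ψ : (ℕ → Bool) → ℕ →. ℕ, OPartrec Ψ →
    ∃ h : ℕ → ℕ, Computable h ∧ ∀ i X n, φ (h i) X n = Ψ X (Nat.pair i n)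

mutual

/-- Kleene's set `O` of notations relative to `x`. -/
inductive InO (φ : ℕ → (ℕ → Bool) → ℕ →. ℕ) (x : ℕ → Bool) : ℕ → Prop
  | one : InO φ x 1
  | succ {a : ℕ} : InO φ x a → InO φ x (2 ^ a)
  | lim {e : ℕ} {f : ℕ → ℕ} : (∀ n, φ e x n = Part.some (f n)) → (∀ n, InO φ x (f n)) →
      (∀ n, LtO φ x (f n) (f (n + 1))) → InO φ x (3 * 5 ^ e)

/-- The order `<_O` relative to `x`. -/
inductive LtO (φ : ℕ → (ℕ → Bool) → ℕ →. ℕ) (x : ℕ → Bool) : ℕ → ℕ → Prop
  | succ {a : ℕ} : InO φ x a → LtO φ x a (2 ^ a)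
  | lim {e : ℕ} {f : ℕ → ℕ} (n : ℕ) : (∀ n, φ e x n = Part.some (f n)) →
      (∀ n, InO φ x (f n)) → (∀ n, LtO φ x (f n) (f (n + 1))) → LtO φ x (f n) (3 * 5 ^ e)
  | trans {a b c : ℕ} : LtO φ x a b → LtO φ x b c → LtO φ x a c

end

open Classical in
/-- The functional `x ↦ O^x`. -/
noncomputable def kleeneO (φ : ℕ → (ℕ → Bool) → ℕ →. ℕ) (x : ℕ → Bool) : ℕ → Bool :=
  fun a => decide (InO φ x a)

/-- `G` is continuously reducible to `F`. -/
def ContinuouslyReducible (G F : (ℕ → Bool) → (ℕ → Bool)) : Prop :=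
  ∃ R₀ R₁ : (ℕ → Bool) → (ℕ → Bool), Continuous R₀ ∧ Continuous R₁ ∧ ∀ x, R₁ (F (R₀ x)) = G x

/-- `G` is Borel reducible to `F`. -/
def BorelReducible (G F : (ℕ → Bool) → (ℕ → Bool)) : Prop :=
  ∃ R₀ R₁ : (ℕ → Bool) → (ℕ → Bool), Measurable R₀ ∧ Measurable R₁ ∧ ∀ x, R₁ (F (R₀ x)) = G x

end Pool.Agent.Q205.KO
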