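import Pool.Agent.Q205.KO.Notations
import Pool.Agent.H418R3.GurWF
import Pool.Agent.Helper446.Oracle

/-!
A functional which clarifies the well-orderings and to which Kleene's `O` is not Borel reducible.
-/

namespace Pool.Agent.Q205.KO

open MeasureTheory Pool.Agent.H418R3.Gur Pool.Agent.Helper446.Oracle Pool.Agent.Helper446.Defs
  Function

/-! ### Well-founded trees -/

theorem mem_IF_compl {T : List ℕ → Bool} : T ∈ (IFᶜ : Set (List ℕ → Bool)) ↔ Acc (R T) [] := by
  rw [Set.mem_compl_iff, ← not_iff_not, not_not, not_acc_iff_exists_descending_chain]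
  constructor
  · rintro ⟨b, hb⟩
    exact ⟨br b, rfl, fun n => ⟨hb n, b n, rfl⟩⟩
  · rintro ⟨f, hf0, hf⟩
    choose b hb using fun n => (hf n).2
    have h1 : ∀ n, f n = br b n := by
      intro n
      induction n with
      | zero => exact hf0
      | succ n ih =>
        rw [hb n, ih]; rfl
    exact ⟨b, fun n => by rw [← h1 n]; exact (hf n).1⟩

theorem succ_lt_omega_one {a : Ordinal.{0}} (h : a < Ordinal.omega 1) :
    Order.succ a < Ordinal.omega 1 := by
  rw [← Cardinal.ord_aleph] at h ⊢
  exact (Cardinal.isSuccLimit_ord (Cardinal.aleph0_le_aleph 1)).succ_lt h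

theorem ms_eq {α β : Type*} [MeasurableSpace α] [MeasurableSpace β] [MeasurableSingletonClass β]
    {f : α → β} (hf : Measurable f) (b : β) : MeasurableSet {x | f x = b} := by
  have h : {x | f x = b} = f ⁻¹' {b} := by
    ext x; simp
  rw [h]
  exact hf (measurableSet_singleton b)

theorem ms_apply {ι α β : Type*} [MeasurableSpace α] [MeasurableSpace β]
    [MeasurableSingletonClass β] {f : α → ι → β} (hf : Measurable f) (i : ι) (b : β) :
    MeasurableSet {x | f x i = b} :=
  ms_eq (f := fun x => f x i) ((measurable_pi_apply (X := fun _ : ι => β) i).comp hf) b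

theorem rank_lt_omega_one {T : List ℕ → Bool} {σ : List ℕ} (h : Acc (R T) σ) :
    h.rank < Ordinal.omega 1 := by
  induction h with
  | intro σ hσ ih =>
    rw [Acc.rank_eq]
    refine Ordinal.iSup_lt_omega_one fun b => ?_
    exact succ_lt_omega_one (ih b.1 b.2)

/-- The nodes all whose proper suffixes are in the tree. -/
def Reach (T : List ℕ → Bool) : List ℕ → Prop
  | [] => True
  | _ :: σ => Reach T σ ∧ T σ = true

theorem reach_cons {T : List ℕ → Bool} {n : ℕ} {σ : List ℕ} (h : Reach T (n :: σ)) :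
    Reach T σ ∧ T σ = true := h

theorem reach_acc {T : List ℕ → Bool} (h : Acc (R T) []) :
    ∀ σ, Reach T σ → Acc (R T) σ
  | [], _ => h
  | n :: σ, hσ => (reach_acc h σ (reach_cons hσ).1).inv ⟨(reach_cons hσ).2, n, rfl⟩

/-- A tree of small rank maps into a long well-ordering. -/
theorem exists_map {T : List ℕ → Bool} (h : Acc (R T) []) (x : ℕ → Bool)
    [IsWellOrder ℕ (rel x)] (hx : h.rank < Ordinal.type (rel x)) :
    ∃ f : List ℕ → ℕ, ∀ (σ : List ℕ) (n : ℕ), Reach T (n :: σ) → rel x (f (n :: σ)) (f σ) := by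
  classical
  have hle : ∀ σ (hσ : Reach T σ), (reach_acc h σ hσ).rank ≤ h.rank := by
    intro σ
    induction σ with
    | nil => intro _; exact le_rfl
    | cons n σ ih =>
      intro hσ
      exact (Acc.rank_lt_of_rel (reach_acc h σ (reach_cons hσ).1)
        ⟨(reach_cons hσ).2, n, rfl⟩).le.trans (ih (reach_cons hσ).1)
  refine ⟨fun σ => if hσ : Reach T σ then
    Ordinal.enum (rel x) ⟨(reach_acc h σ hσ).rank, Set.mem_Iio.2 ((hle σ hσ).trans_lt hx)⟩
      else 0, ?_⟩
  intro σ n hσ
  beta_reduce
  rw [dif_pos hσ, dif_pos (reach_cons hσ).1]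
  refine (Ordinal.enum_lt_enum (r := rel x)).2 ?_
  exact Acc.rank_lt_of_rel (reach_acc h σ (reach_cons hσ).1) ⟨(reach_cons hσ).2, n, rfl⟩

/-- A tree which maps into a well-ordering is well-founded. -/
theorem wf_of_map {T : List ℕ → Bool} (x : ℕ → Bool) [IsWellOrder ℕ (rel x)] {f : List ℕ → ℕ}
    (hf : ∀ (σ : List ℕ) (n : ℕ), Reach T (n :: σ) → rel x (f (n :: σ)) (f σ)) :
    T ∈ (IFᶜ : Set (List ℕ → Bool)) := by
  rintro ⟨b, hb⟩
  have hr : ∀ n, Reach T (br b n) := by
    intro n
    induction n with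
    | zero => trivial
    | succ n ih => exact ⟨ih, hb n⟩
  have hwf : WellFounded (rel x) := IsWellFounded.wf
  have h1 := wellFounded_iff_isEmpty_descending_chain.1 hwf
  exact h1.false ⟨fun n => f (br b n), fun n => hf (br b n) (b n) (hr (n + 1))⟩

/-! ### The functional -/

/-- Isomorphism of relations on `ℕ`. -/
def isoSetoid : Setoid (ℕ → Bool) where
  r x y := Nonempty (rel x ≃r rel y)
  iseqv := ⟨fun _ => ⟨RelIso.refl _⟩, fun ⟨e⟩ => ⟨e.symm⟩, fun ⟨e⟩ ⟨e'⟩ => ⟨e.trans e'⟩⟩

/-- A fixed representative of the isomorphism class. -/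
noncomputable def ref (x : ℕ → Bool) : ℕ → Bool := (Quotient.mk isoSetoid x).out

theorem ref_iso (x : ℕ → Bool) : Nonempty (rel x ≃r rel (ref x)) := by
  have h : isoSetoid.r (ref x) x := Quotient.mk_out (s := isoSetoid) x
  exact isoSetoid.iseqv.symm h

theorem ref_eq {x y : ℕ → Bool} (h : Nonempty (rel x ≃r rel y)) : ref x = ref y := by
  have h1 : Quotient.mk isoSetoid x = Quotient.mk isoSetoid y := Quotient.sound h
  unfold ref
  rw [h1]

/-- The chosen isomorphism. -/
noncomputable def iso (x : ℕ → Bool) : rel x ≃r rel (ref x) := Classical.choice (ref_iso x)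

/-- The graph of a function as a real. -/
def code (i : ℕ → ℕ) : ℕ → Bool := fun p => decide (i p.unpair.1 = p.unpair.2)

open Classical in
/-- The functional. -/
noncomputable def Fc (x : ℕ → Bool) : ℕ → Bool :=
  if x ∈ W then code (iso x) else fun _ => false

theorem Fc_of_mem {x : ℕ → Bool} (hx : x ∈ W) : Fc x = code (iso x) := if_pos hx

theorem Fc_of_notMem {x : ℕ → Bool} (hx : x ∉ W) : Fc x = fun _ => false := if_neg hx

theorem oracle_eq (x : ℕ → Bool) : oracle x = chi {n | x n = true} := by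
  funext n
  unfold oracle chi
  congr 1
  cases h : x n
  · symm
    rw [Bool.toNat_false, chiN_eq_zero]
    simp [h]
  · symm
    rw [Bool.toNat_true, chiN_eq_one]
    exact h

theorem clarifies_Fc : Clarifies Fc := by
  intro A hA B hB hAB
  have h1 : ref A = ref B := ref_eq hAB
  obtain ⟨j, hj⟩ : ∃ j : rel B ≃r rel (ref A), (⇑j : ℕ → ℕ) = ⇑(iso B) := by
    rw [h1]; exact ⟨iso B, rfl⟩
  refine ⟨(iso A).trans j.symm, ?_⟩
  rw [oracle_eq, turingReducible_fun_iff, Fc_of_mem hA, Fc_of_mem hB]
  have h2 : REIn {n | join (code (iso A)) (code (iso B)) n = true}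
      (fun p : ℕ × ℕ => ∃ q : ℕ, 2 * Nat.pair p.1 q ∈
        {n | join (code (iso A)) (code (iso B)) n = true} ∧
        2 * Nat.pair p.2 q + 1 ∈ {n | join (code (iso A)) (code (iso B)) n = true}) := by
    refine REIn.ex (S := fun (p : ℕ × ℕ) (q : ℕ) => 2 * Nat.pair p.1 q ∈
        {n | join (code (iso A)) (code (iso B)) n = true} ∧
        2 * Nat.pair p.2 q + 1 ∈ {n | join (code (iso A)) (code (iso B)) n = true}) ?_
    refine REIn.and (REIn.mem ?_) (REIn.mem ?_)
    · exact Primrec.to_comp (Primrec.nat_mul.comp (Primrec.const 2)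
        (Primrec₂.natPair.comp (Primrec.fst.comp Primrec.fst) Primrec.snd))
    · exact Primrec.to_comp (Primrec.succ.comp (Primrec.nat_mul.comp (Primrec.const 2)
        (Primrec₂.natPair.comp (Primrec.snd.comp Primrec.fst) Primrec.snd)))
  refine h2.of_eq fun p => ?_
  have e1 : ∀ q, 2 * Nat.pair p.1 q ∈
      {n | join (code (iso A)) (code (iso B)) n = true} ↔ iso A p.1 = q := by
    intro q
    have h3 : 2 * Nat.pair p.1 q % 2 = 0 := by omega
    have h4 : 2 * Nat.pair p.1 q / 2 = Nat.pair p.1 q := by omega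
    rw [Set.mem_ofPred_eq]
    unfold join
    rw [if_pos h3, h4]
    simp [code]
  have e2 : ∀ q, 2 * Nat.pair p.2 q + 1 ∈
      {n | join (code (iso A)) (code (iso B)) n = true} ↔ iso B p.2 = q := by
    intro q
    have h3 : ¬ (2 * Nat.pair p.2 q + 1) % 2 = 0 := by omega
    have h4 : (2 * Nat.pair p.2 q + 1) / 2 = Nat.pair p.2 q := by omega
    rw [Set.mem_ofPred_eq]
    unfold join
    rw [if_neg h3, h4]
    simp [code]
  have e3 : iso B p.2 = j p.2 := (congrFun hj p.2).symm
  constructor
  · rintro ⟨q, hq1, hq2⟩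
    rw [e1] at hq1
    rw [e2, e3] at hq2
    show j.symm (iso A p.1) = p.2
    rw [hq1, ← hq2]
    exact j.symm_apply_apply _
  · intro h3
    refine ⟨iso A p.1, (e1 _).2 rfl, ?_⟩
    rw [e2, e3, ← h3]
    exact j.apply_symm_apply _

/-! ### The countable case -/

theorem union_analytic {α : Type*} [TopologicalSpace α] {s t : Set α} (hs : AnalyticSet s)
    (ht : AnalyticSet t) : AnalyticSet (s ∪ t) := by
  rw [Set.union_eq_iUnion]
  refine AnalyticSet.iUnion fun b => ?_
  cases b
  · exact ht
  · exact hs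

theorem countable_of_type_lt {C : Set (ℕ → Bool)} {o : Ordinal.{0}} (ho : o < Ordinal.omega 1)
    (hC : ∀ y ∈ C, ∃ x, ∃ _ : IsWellOrder ℕ (rel x), y = ref x ∧ Ordinal.type (rel x) ≤ o) :
    C.Countable := by
  have h1 : (Set.Iic o).Countable := by
    have h2 : (Set.Iio (Order.succ o)).Countable := by
      rw [← Cardinal.le_aleph0_iff_set_countable, Cardinal.mk_Iio_ordinal]
      have h3 : Order.succ o < Ordinal.omega 1 := succ_lt_omega_one ho
      rw [← Cardinal.ord_aleph, Cardinal.lt_ord] at h3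
      have h4 : (Order.succ o).card ≤ Cardinal.aleph0 := by
        rw [← Cardinal.aleph_zero]
        have h5 : Cardinal.aleph 1 = Order.succ (Cardinal.aleph 0) := by
          rw [Cardinal.succ_aleph, zero_add]
        rw [h5, Order.lt_succ_iff] at h3
        exact h3
      have h5 := Cardinal.lift_le.{1}.2 h4
      rwa [Cardinal.lift_aleph0] at h5
    refine h2.mono fun a ha => ?_
    exact Set.mem_Iio.2 (Order.lt_succ_iff.2 (Set.mem_Iic.1 ha))
  choose! x hx using hC
  choose hw hyx hle using hx
  classical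
  let G : C → Set.Iic o := fun y => ⟨@Ordinal.type _ (rel (x y.1)) (hw y.1 y.2), hle y.1 y.2⟩
  have hG : Injective G := by
    intro y z hyz
    have h2 : @Ordinal.type _ (rel (x y.1)) (hw y.1 y.2) =
        @Ordinal.type _ (rel (x z.1)) (hw z.1 z.2) := congrArg Subtype.val hyz
    have h3 := @Ordinal.type_eq ℕ ℕ (rel (x y.1)) (rel (x z.1)) (hw y.1 y.2) (hw z.1 z.2)
    have h4 := ref_eq (h3.1 h2)
    apply Subtype.ext
    rw [hyx y.1 y.2, hyx z.1 z.2, h4]
  have : Countable (Set.Iic o) := h1
  exact hG.countable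

/-- The main argument. -/
theorem not_borelReducible {φ : ℕ → (ℕ → Bool) → ℕ →. ℕ} (hφ : Acceptable φ) :
    ¬ BorelReducible (kleeneO φ) Fc := by
  rintro ⟨R₀, R₁, hR₀, hR₁, hred⟩
  obtain ⟨h, -, hh⟩ := hφ.smn Psi psi_opartrec
  set g : (List ℕ → Bool) → (ℕ → Bool) := fun T => R₀ (xT h T) with hg
  have hgm : Measurable g := hR₀.comp (continuous_xT h).measurable
  set a0 : ℕ := N h [[]] with ha0
  have hmem : ∀ T : List ℕ → Bool, T ∈ (IFᶜ : Set (List ℕ → Bool)) ↔ R₁ (Fc (g T)) a0 = true := by
    intro T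
    rw [mem_IF_compl, ← inO_iff hh T, hg]
    show _ ↔ R₁ (Fc (R₀ (xT h T))) a0 = true
    rw [hred]
    simp only [kleeneO, decide_eq_true_eq]
    exact Iff.rfl
  set Bad : Set (List ℕ → Bool) := {T | g T ∉ W} with hBad
  have hsub : Bad.Subsingleton := by
    intro T hT T' hT'
    apply kleeneO_inj hh
    rw [← hred, ← hred]
    show R₁ (Fc (g T)) = R₁ (Fc (g T'))
    rw [Fc_of_notMem hT, Fc_of_notMem hT']
  have hBm : MeasurableSet Bad := hsub.measurableSet
  by_cases hU : ∀ T ∈ (IFᶜ : Set (List ℕ → Bool)), ∃ T', T' ∉ Bad ∧ ∃ f : List ℕ → ℕ,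
      ∀ (σ : List ℕ) (n : ℕ), Reach T (n :: σ) → rel (g T') (f (n :: σ)) (f σ)
  · -- the unbounded case
    have hset : (IFᶜ : Set (List ℕ → Bool)) = (fun p : (List ℕ → Bool) × (List ℕ → Bool) ×
        (List ℕ → ℕ) => p.1) '' {p | p.2.1 ∉ Bad ∧ ∀ (σ : List ℕ) (n : ℕ),
          Reach p.1 (n :: σ) → rel (g p.2.1) (p.2.2 (n :: σ)) (p.2.2 σ)} := by
      ext T
      constructor
      · intro hT
        obtain ⟨T', hT', f, hf⟩ := hU T hT
        exact ⟨(T, T', f), ⟨hT', hf⟩, rfl⟩
      · rintro ⟨⟨T, T', f⟩, ⟨hT', hf⟩, rfl⟩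
        have hW : IsWellOrder ℕ (rel (g T')) := by
          by_contra hne
          exact hT' hne
        exact wf_of_map (g T') hf
    apply not_analytic
    rw [hset]
    refine MeasurableSet.analyticSet_image ?_ measurable_fst
    refine MeasurableSet.inter ?_ ?_
    · exact (hBm.preimage (measurable_fst.comp measurable_snd)).compl
    · have hReach : ∀ σ : List ℕ, MeasurableSet {p : (List ℕ → Bool) × (List ℕ → Bool) ×
          (List ℕ → ℕ) | Reach p.1 σ} := by
        intro σ
        induction σ with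
        | nil => exact MeasurableSet.univ
        | cons n σ ih =>
          refine MeasurableSet.inter ih ?_
          exact ms_apply measurable_fst σ true
      have hrel : ∀ (σ τ : List ℕ), MeasurableSet {p : (List ℕ → Bool) × (List ℕ → Bool) ×
          (List ℕ → ℕ) | rel (g p.2.1) (p.2.2 τ) (p.2.2 σ)} := by
        intro σ τ
        have h1 : {p : (List ℕ → Bool) × (List ℕ → Bool) × (List ℕ → ℕ) |
            rel (g p.2.1) (p.2.2 τ) (p.2.2 σ)} =
            ⋃ a : ℕ, ⋃ b : ℕ, ({p | p.2.2 τ = a} ∩ {p | p.2.2 σ = b}) ∩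
              {p | rel (g p.2.1) a b} := by
          ext p
          simp only [Set.mem_ofPred_eq, Set.mem_iUnion, Set.mem_inter_iff]
          constructor
          · intro hp; exact ⟨_, _, ⟨rfl, rfl⟩, hp⟩
          · rintro ⟨a, b, ⟨rfl, rfl⟩, hp⟩; exact hp
        rw [h1]
        refine MeasurableSet.iUnion fun a => MeasurableSet.iUnion fun b => ?_
        refine MeasurableSet.inter (MeasurableSet.inter ?_ ?_) ?_
        · exact ms_apply (measurable_snd.comp measurable_snd) τ a
        · exact ms_apply (measurable_snd.comp measurable_snd) σ b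
        · exact ms_apply (hgm.comp (measurable_fst.comp measurable_snd)) (Nat.pair a b) true
      have h2 : {p : (List ℕ → Bool) × (List ℕ → Bool) × (List ℕ → ℕ) |
          ∀ (σ : List ℕ) (n : ℕ), Reach p.1 (n :: σ) →
            rel (g p.2.1) (p.2.2 (n :: σ)) (p.2.2 σ)} =
          ⋂ σ : List ℕ, ⋂ n : ℕ, ({p | Reach p.1 (n :: σ)}ᶜ ∪
            {p | rel (g p.2.1) (p.2.2 (n :: σ)) (p.2.2 σ)}) := by
        ext p
        simp only [Set.mem_ofPred_eq, Set.mem_iInter, Set.mem_union, Set.mem_compl_iff,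
          imp_iff_not_or]
      have h3 : MeasurableSet {p : (List ℕ → Bool) × (List ℕ → Bool) × (List ℕ → ℕ) |
          ∀ (σ : List ℕ) (n : ℕ), Reach p.1 (n :: σ) →
            rel (g p.2.1) (p.2.2 (n :: σ)) (p.2.2 σ)} := by
        rw [h2]
        exact MeasurableSet.iInter fun σ => MeasurableSet.iInter fun n =>
          ((hReach (n :: σ)).compl).union (hrel σ (n :: σ))
      exact h3
  · -- the bounded case
    push Not at hU
    obtain ⟨T₀, hT₀, hno⟩ := hU
    have hacc := mem_IF_compl.1 hT₀
    have hbd : ∀ T', T' ∉ Bad → ∃ _ : IsWellOrder ℕ (rel (g T')),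
        Ordinal.type (rel (g T')) ≤ hacc.rank := by
      intro T' hT'
      have hW : IsWellOrder ℕ (rel (g T')) := by
        by_contra hne
        exact hT' hne
      refine ⟨hW, ?_⟩
      by_contra hlt
      rw [not_le] at hlt
      obtain ⟨f, hf⟩ := exists_map hacc (g T') hlt
      obtain ⟨σ, n, h1, h2⟩ := hno T' hT' f
      exact h2 (hf σ n h1)
    set C : Set (ℕ → Bool) := (fun T => ref (g T)) '' Badᶜ with hC
    have hCc : C.Countable := by
      refine countable_of_type_lt (rank_lt_omega_one hacc) ?_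
      rintro y ⟨T', hT', rfl⟩
      obtain ⟨hW, hle⟩ := hbd T' hT'
      exact ⟨g T', hW, rfl, hle⟩
    set S : (ℕ → Bool) → Set (List ℕ → Bool) := fun y => {T | T ∉ Bad ∧ ∃ i : ℕ → ℕ,
      Bijective i ∧ (∀ m n, rel (g T) m n ↔ rel y (i m) (i n)) ∧ R₁ (code i) a0 = true} with hS
    have hset : (IFᶜ : Set (List ℕ → Bool)) = (⋃ y : C, S y.1) ∪ (IFᶜ ∩ Bad) := by
      ext T
      constructor
      · intro hT
        by_cases hB : T ∈ Bad
        · exact Or.inr ⟨hT, hB⟩
        · left
          have hW : g T ∈ W := by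
            by_contra hne
            exact hB hne
          refine Set.mem_iUnion.2 ⟨⟨ref (g T), ⟨T, hB, rfl⟩⟩, hB, iso (g T),
            (iso (g T)).bijective, fun m n => (iso (g T)).map_rel_iff.symm, ?_⟩
          have h1 := (hmem T).1 hT
          rwa [Fc_of_mem hW] at h1
      · rintro (hT | hT)
        · obtain ⟨⟨y, T', hT', rfl⟩, hB, i, hi, hrel, hR⟩ := Set.mem_iUnion.1 hT
          have hW : g T ∈ W := by
            by_contra hne
            exact hB hne
          have hW' : IsWellOrder ℕ (rel (g T)) := hW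
          let e : rel (g T) ≃r rel (ref (g T')) :=
            ⟨Equiv.ofBijective i hi, fun {m n} => (hrel m n).symm⟩
          have h1 : ref (g T) = ref (g T') := by
            obtain ⟨e'⟩ := ref_iso (g T')
            exact ref_eq ⟨e.trans e'.symm⟩
          obtain ⟨j, hj⟩ : ∃ j : rel (g T) ≃r rel (ref (g T')), (⇑j : ℕ → ℕ) = ⇑(iso (g T)) := by
            rw [← h1]; exact ⟨iso (g T), rfl⟩
          have hW'' : IsWellOrder ℕ (rel (ref (g T'))) :=
            @RelEmbedding.isWellOrder _ _ _ _ e.symm.toRelEmbedding hW'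
          have h2 : e.toInitialSeg = j.toInitialSeg := Subsingleton.elim _ _
          have h3 : i = ⇑(iso (g T)) := by
            rw [← hj]
            funext m
            exact congrArg (fun f : InitialSeg (rel (g T)) (rel (ref (g T'))) => f m) h2
          rw [hmem, Fc_of_mem hW, ← h3]
          exact hR
        · exact hT.1
    apply not_analytic
    rw [hset]
    have hCc' : Countable C := hCc
    have hPol : PolishSpace (List ℕ → Bool) := {}
    refine union_analytic (AnalyticSet.iUnion fun y => ?_)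
      (hsub.anti Set.inter_subset_right).measurableSet.analyticSet
    have h1 : S y.1 = (fun p : (List ℕ → Bool) × (ℕ → ℕ) => p.1) ''
        {p | p.1 ∉ Bad ∧ Bijective p.2 ∧ (∀ m n, rel (g p.1) m n ↔ rel y.1 (p.2 m) (p.2 n)) ∧
          R₁ (code p.2) a0 = true} := by
      ext T
      constructor
      · rintro ⟨hB, i, hi⟩
        exact ⟨(T, i), ⟨hB, hi⟩, rfl⟩
      · rintro ⟨⟨T, i⟩, ⟨hB, hi⟩, rfl⟩
        exact ⟨hB, i, hi⟩
    rw [h1]
    refine MeasurableSet.analyticSet_image ?_ measurable_fst
    refine MeasurableSet.inter (hBm.preimage measurable_fst).compl ?_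
    have hval : ∀ m a : ℕ, MeasurableSet {p : (List ℕ → Bool) × (ℕ → ℕ) | p.2 m = a} :=
      fun m a => ms_apply measurable_snd m a
    refine MeasurableSet.inter ?_ (MeasurableSet.inter ?_ ?_)
    · refine MeasurableSet.inter ?_ ?_
      · have h2 : {p : (List ℕ → Bool) × (ℕ → ℕ) | Injective p.2} =
            ⋂ m : ℕ, ⋂ n : ℕ, {p | p.2 m = p.2 n → m = n} := by
          ext p
          simp only [Set.mem_ofPred_eq, Set.mem_iInter]
          exact Iff.rfl
        have h3 : MeasurableSet {p : (List ℕ → Bool) × (ℕ → ℕ) | Injective p.2} := by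
          rw [h2]
          refine MeasurableSet.iInter fun m => MeasurableSet.iInter fun n => ?_
          by_cases hmn : m = n
          · simp [hmn]
          · have h4 : {p : (List ℕ → Bool) × (ℕ → ℕ) | p.2 m = p.2 n → m = n} =
                {p | p.2 m = p.2 n}ᶜ := by
              ext p; simp [hmn]
            rw [h4]
            refine MeasurableSet.compl ?_
            have h5 : {p : (List ℕ → Bool) × (ℕ → ℕ) | p.2 m = p.2 n} =
                ⋃ a : ℕ, {p | p.2 m = a} ∩ {p | p.2 n = a} := by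
              ext p
              simp only [Set.mem_ofPred_eq, Set.mem_iUnion, Set.mem_inter_iff]
              constructor
              · intro hp; exact ⟨_, hp, rfl⟩
              · rintro ⟨a, h6, h7⟩; rw [h6, h7]
            rw [h5]
            exact MeasurableSet.iUnion fun a => (hval m a).inter (hval n a)
        exact h3
      · have h2 : {p : (List ℕ → Bool) × (ℕ → ℕ) | Surjective p.2} =
            ⋂ b : ℕ, ⋃ m : ℕ, {p | p.2 m = b} := by
          ext p
          simp only [Set.mem_ofPred_eq, Set.mem_iInter, Set.mem_iUnion]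
          exact Iff.rfl
        have h3 : MeasurableSet {p : (List ℕ → Bool) × (ℕ → ℕ) | Surjective p.2} := by
          rw [h2]
          exact MeasurableSet.iInter fun b => MeasurableSet.iUnion fun m => hval m b
        exact h3
    · have h2 : {p : (List ℕ → Bool) × (ℕ → ℕ) |
          ∀ m n, rel (g p.1) m n ↔ rel y.1 (p.2 m) (p.2 n)} =
          ⋂ m : ℕ, ⋂ n : ℕ, ⋃ a : ℕ, ⋃ b : ℕ, ({p | p.2 m = a} ∩ {p | p.2 n = b}) ∩
            {p | rel (g p.1) m n ↔ rel y.1 a b} := by
        ext p
        simp only [Set.mem_ofPred_eq, Set.mem_iInter, Set.mem_iUnion, Set.mem_inter_iff]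
        refine forall_congr' fun m => forall_congr' fun n => ?_
        constructor
        · intro hp; exact ⟨_, _, ⟨rfl, rfl⟩, hp⟩
        · rintro ⟨a, b, ⟨rfl, rfl⟩, hp⟩; exact hp
      have h3 : MeasurableSet {p : (List ℕ → Bool) × (ℕ → ℕ) |
          ∀ m n, rel (g p.1) m n ↔ rel y.1 (p.2 m) (p.2 n)} := by
        rw [h2]
        refine MeasurableSet.iInter fun m => MeasurableSet.iInter fun n =>
          MeasurableSet.iUnion fun a => MeasurableSet.iUnion fun b =>
            ((hval m a).inter (hval n b)).inter ?_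
        have h4 : MeasurableSet {p : (List ℕ → Bool) × (ℕ → ℕ) | rel (g p.1) m n} :=
          ms_apply (hgm.comp measurable_fst) (Nat.pair m n) true
        by_cases hab : rel y.1 a b
        · have h5 : {p : (List ℕ → Bool) × (ℕ → ℕ) | rel (g p.1) m n ↔ rel y.1 a b} =
              {p | rel (g p.1) m n} := by
            ext p; simp [hab]
          rw [h5]; exact h4
        · have h5 : {p : (List ℕ → Bool) × (ℕ → ℕ) | rel (g p.1) m n ↔ rel y.1 a b} =
              {p | rel (g p.1) m n}ᶜ := by
            ext p; simp [hab]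
          rw [h5]; exact h4.compl
      exact h3
    · have hcode : Measurable code := by
        refine measurable_pi_lambda _ fun p => ?_
        have h2 : (fun i : ℕ → ℕ => code i p) =
            (fun a : ℕ => decide (a = p.unpair.2)) ∘ fun i : ℕ → ℕ => i p.unpair.1 := rfl
        rw [h2]
        exact (measurable_from_nat).comp (measurable_pi_apply _)
      exact ms_apply (hR₁.comp (hcode.comp measurable_snd)) a0 true

/-- An acceptable numbering exists. -/
theorem exists_acceptable (B : Pool.Agent.Helper672.Blum.RelBlum) : Acceptable B.φ :=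
  ⟨B.universal, B.acceptable⟩

end Pool.Agent.Q205.KO
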