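import Pool.Agent.Q205.KO.Defs

/-!
A continuous map from trees to reals which reduces well-foundedness to membership in Kleene's `O`.
-/

namespace Pool.Agent.Q205.KO

open Pool.Agent.Helper672.Blum Encodable

/-- A real coding a function. -/
def xf (F : ℕ → ℕ) : ℕ → Bool := fun p => decide (F p.unpair.1 ≠ p.unpair.2)

/-- The functional which reads a value of the coded function. -/
def Psi (X : ℕ → Bool) (n : ℕ) : Part ℕ :=
  Nat.rfind fun m => (Part.some (X (Nat.pair n m)).toNat : Part ℕ).map fun v => decide (v = 0)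

theorem psi_opartrec : OPartrec Psi := OPartrec.rfind OPartrec.oracle

theorem psi_xf (F : ℕ → ℕ) (n : ℕ) : Psi (xf F) n = Part.some (F n) := by
  rw [Part.eq_some_iff]
  refine Nat.mem_rfind.2 ⟨?_, fun {m} hm => ?_⟩
  · simp [xf]
  · have : F n ≠ m := by omega
    simp [xf, this]

/-- Iterated successor notation. -/
def it : ℕ → ℕ → ℕ
  | 0, a => a
  | n + 1, a => 2 ^ it n a

/-- The first `n + 1` children of `σ` put on top of `l`. -/
def ch (σ : List ℕ) (l : List (List ℕ)) : ℕ → List (List ℕ)
  | 0 => (0 :: σ) :: l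
  | n + 1 => ((n + 1) :: σ) :: ch σ l n

theorem ch_eq (σ : List ℕ) (l : List (List ℕ)) (n : ℕ) : ∃ l', ch σ l n = (n :: σ) :: l' := by
  cases n with
  | zero => exact ⟨l, rfl⟩
  | succ n => exact ⟨ch σ l n, rfl⟩

section

variable (h : ℕ → ℕ)

/-- The notation of a label. -/
def N : List (List ℕ) → ℕ
  | [] => 1
  | σ :: l => 3 * 5 ^ h (2 * encode (σ :: l))

/-- The function coded by the real of a tree. -/
def FT (T : List ℕ → Bool) (p : ℕ) : ℕ :=
  if p.unpair.1 % 2 = 0 then
    match decode (α := List (List ℕ)) (p.unpair.1 / 2) with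
    | some (σ :: l) => if T σ then N h (ch σ l p.unpair.2) else it p.unpair.2 (N h l)
    | _ => 0
  else
    match decode (α := List ℕ) (p.unpair.1 / 2) with
    | some σ => if T σ then it p.unpair.2 1 else 1
    | none => 0

theorem FT_even (T : List ℕ → Bool) (σ : List ℕ) (l : List (List ℕ)) (n : ℕ) :
    FT h T (Nat.pair (2 * encode (σ :: l)) n) =
      if T σ then N h (ch σ l n) else it n (N h l) := by
  unfold FT
  rw [Nat.unpair_pair]
  have h1 : 2 * encode (σ :: l) % 2 = 0 := by omega
  have h2 : 2 * encode (σ :: l) / 2 = encode (σ :: l) := by omega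
  rw [if_pos h1, h2, encodek]

theorem FT_odd (T : List ℕ → Bool) (σ : List ℕ) (n : ℕ) :
    FT h T (Nat.pair (2 * encode σ + 1) n) = if T σ then it n 1 else 1 := by
  unfold FT
  rw [Nat.unpair_pair]
  have h1 : ¬ (2 * encode σ + 1) % 2 = 0 := by omega
  have h2 : (2 * encode σ + 1) / 2 = encode σ := by omega
  rw [if_neg h1, h2, encodek]

/-- The real of a tree. -/
def xT (T : List ℕ → Bool) : ℕ → Bool := xf (FT h T)

theorem continuous_xT : Continuous (xT h) := by
  refine continuous_pi fun p => ?_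
  unfold xT xf FT
  have hb : ∀ (σ : List ℕ) (A B C : ℕ), Continuous fun T : List ℕ → Bool =>
      decide ((if T σ then A else B) ≠ C) := by
    intro σ A B C
    have h1 : Continuous fun b : Bool => decide ((if b then A else B) ≠ C) :=
      continuous_of_discreteTopology
    exact h1.comp (continuous_apply σ)
  by_cases h1 : p.unpair.1.unpair.1 % 2 = 0
  · simp only [if_pos h1]
    rcases hd : decode (α := List (List ℕ)) (p.unpair.1.unpair.1 / 2) with _ | (_ | ⟨σ, l⟩)
    · exact (continuous_const : Continuous fun _ : List ℕ → Bool =>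
        decide ((0 : ℕ) ≠ p.unpair.2))
    · exact (continuous_const : Continuous fun _ : List ℕ → Bool =>
        decide ((0 : ℕ) ≠ p.unpair.2))
    · exact hb σ _ _ _
  · simp only [if_neg h1]
    rcases hd : decode (α := List ℕ) (p.unpair.1.unpair.1 / 2) with _ | σ
    · exact (continuous_const : Continuous fun _ : List ℕ → Bool =>
        decide ((0 : ℕ) ≠ p.unpair.2))
    · exact hb σ _ _ _

end

section

variable {φ : ℕ → (ℕ → Bool) → ℕ →. ℕ} {h : ℕ → ℕ}
  (hh : ∀ i X n, φ (h i) X n = Psi X (Nat.pair i n))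

include hh in
theorem h_inj {i j : ℕ} (hij : h i = h j) : i = j := by
  have h1 := hh i (xf fun p => p.unpair.1) 0
  have h2 := hh j (xf fun p => p.unpair.1) 0
  rw [psi_xf, Nat.unpair_pair] at h1 h2
  rw [hij, h2] at h1
  exact (Part.some_inj.1 h1).symm

include hh in
theorem phi_even (T : List ℕ → Bool) (σ : List ℕ) (l : List (List ℕ)) (n : ℕ) :
    φ (h (2 * encode (σ :: l))) (xT h T) n =
      Part.some (if T σ then N h (ch σ l n) else it n (N h l)) := by
  rw [hh]
  unfold xT
  rw [psi_xf, FT_even]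

include hh in
theorem phi_odd (T : List ℕ → Bool) (σ : List ℕ) (n : ℕ) :
    φ (h (2 * encode σ + 1)) (xT h T) n = Part.some (if T σ then it n 1 else 1) := by
  rw [hh]
  unfold xT
  rw [psi_xf, FT_odd]

theorem it_mem {x : ℕ → Bool} {a : ℕ} (ha : InO φ x a) (n : ℕ) : InO φ x (it n a) := by
  induction n with
  | zero => exact ha
  | succ n ih => exact InO.succ ih

/-- The child relation of the tree. -/
def R (T : List ℕ → Bool) (τ σ : List ℕ) : Prop := T σ = true ∧ ∃ n, τ = n :: σ

include hh in
theorem forward {T : List ℕ → Bool} {σ : List ℕ} (hσ : Acc (R T) σ) :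
    ∀ l, InO φ (xT h T) (N h l) → InO φ (xT h T) (N h (σ :: l)) ∧
      LtO φ (xT h T) (N h l) (N h (σ :: l)) := by
  induction hσ with
  | intro σ _ ih =>
    intro l hl
    by_cases hT : T σ = true
    · have hch : ∀ n, InO φ (xT h T) (N h (ch σ l n)) := by
        intro n
        induction n with
        | zero => exact (ih (0 :: σ) ⟨hT, 0, rfl⟩ l hl).1
        | succ n ihn => exact (ih ((n + 1) :: σ) ⟨hT, n + 1, rfl⟩ _ ihn).1
      have hlt : ∀ n, LtO φ (xT h T) (N h (ch σ l n)) (N h (ch σ l (n + 1))) := fun n =>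
        (ih ((n + 1) :: σ) ⟨hT, n + 1, rfl⟩ _ (hch n)).2
      have hφ : ∀ n, φ (h (2 * encode (σ :: l))) (xT h T) n = Part.some (N h (ch σ l n)) := by
        intro n
        rw [phi_even hh, if_pos hT]
      refine ⟨InO.lim hφ hch hlt, ?_⟩
      exact LtO.trans (ih (0 :: σ) ⟨hT, 0, rfl⟩ l hl).2
        (LtO.lim (f := fun n => N h (ch σ l n)) 0 hφ hch hlt)
    · have hch : ∀ n, InO φ (xT h T) (it n (N h l)) := fun n => it_mem hl n
      have hlt : ∀ n, LtO φ (xT h T) (it n (N h l)) (it (n + 1) (N h l)) := fun n =>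
        LtO.succ (hch n)
      have hφ : ∀ n, φ (h (2 * encode (σ :: l))) (xT h T) n = Part.some (it n (N h l)) := by
        intro n
        rw [phi_even hh, if_neg hT]
      exact ⟨InO.lim hφ hch hlt, LtO.lim (f := fun n => it n (N h l)) 0 hφ hch hlt⟩

theorem not_one (e : ℕ) : 3 * 5 ^ e ≠ 1 := by
  intro h1
  have : 3 ∣ 1 := ⟨5 ^ e, h1.symm⟩
  omega

theorem not_two_pow (a e : ℕ) : 2 ^ a ≠ 3 * 5 ^ e := by
  intro h1
  have h2 : 3 ∣ 2 ^ a := ⟨5 ^ e, h1⟩
  have h3 := Nat.Prime.dvd_of_dvd_pow Nat.prime_three h2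
  omega

theorem three_five_inj {e e' : ℕ} (h1 : 3 * 5 ^ e = 3 * 5 ^ e') : e = e' := by
  have h2 : 5 ^ e = 5 ^ e' := by omega
  exact Nat.pow_right_injective (by norm_num) h2

include hh in
theorem backward {T : List ℕ → Bool} {a : ℕ} (ha : InO φ (xT h T) a) :
    ∀ σ l, a = N h (σ :: l) → Acc (R T) σ := by
  refine InO.rec (motive_1 := fun a _ => ∀ σ l, a = N h (σ :: l) → Acc (R T) σ)
    (motive_2 := fun _ _ _ => True) ?_ ?_ ?_ ?_ ?_ ?_ ha
  · intro σ l h1
    exact absurd h1.symm (not_one _)
  · intro a _ _ σ l h1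
    exact absurd h1 (not_two_pow _ _)
  · intro e f hf _ _ ih _ σ l h1
    have h2 : e = h (2 * encode (σ :: l)) := three_five_inj h1
    refine Acc.intro σ ?_
    rintro τ ⟨hT, n, rfl⟩
    have h3 := hf n
    rw [h2, phi_even hh, if_pos hT] at h3
    obtain ⟨l', hl'⟩ := ch_eq σ l n
    have h4 : f n = N h ((n :: σ) :: l') := by
      rw [← Part.some_inj.1 h3, hl']
    exact ih n _ _ h4
  · intros; trivial
  · intros; trivial
  · intros; trivial

include hh in
/-- The fixed number reducing well-foundedness. -/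
theorem inO_iff (T : List ℕ → Bool) : InO φ (xT h T) (N h [[]]) ↔ Acc (R T) [] := by
  constructor
  · intro h1; exact backward hh h1 [] [] rfl
  · intro h1; exact (forward hh h1 [] InO.one).1

/-- Nothing is below the notation `1`. -/
theorem not_lt_one {x : ℕ → Bool} {a b : ℕ} (hab : LtO φ x a b) : b ≠ 1 := by
  refine LtO.rec (motive_1 := fun a _ => a ≠ 0) (motive_2 := fun _ b _ => b ≠ 1)
    ?_ ?_ ?_ ?_ ?_ ?_ hab
  · exact one_ne_zero
  · intro a _ _; exact (Nat.two_pow_pos a).ne'
  · intro e f _ _ _ _ _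
    have := Nat.pow_pos (n := e) (show 0 < 5 by norm_num)
    omega
  · intro a _ ha h1
    have : a = 0 := by
      by_contra hne
      have h2 := Nat.one_lt_two_pow hne
      omega
    exact ha this
  · intro e f n _ _ _ _ _
    exact not_one e
  · intro a b c _ _ _ hc
    exact hc

include hh in
/-- The tree can be recovered from `O`. -/
theorem inO_odd (T : List ℕ → Bool) (σ : List ℕ) :
    InO φ (xT h T) (3 * 5 ^ h (2 * encode σ + 1)) ↔ T σ = true := by
  constructor
  · intro h1
    by_contra hT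
    have key : ∀ a, InO φ (xT h T) a → a = 3 * 5 ^ h (2 * encode σ + 1) → False := by
      intro a ha hae
      cases ha with
      | one => exact not_one _ hae.symm
      | succ _ => exact not_two_pow _ _ hae
      | @lim e f hf h2 h3 =>
        have h4 := three_five_inj hae
        subst h4
        have h5 := hf 1
        rw [phi_odd hh, if_neg hT] at h5
        exact not_lt_one (h3 0) (Part.some_inj.1 h5).symm
    exact key _ h1 rfl
  · intro hT
    have hφ : ∀ n, φ (h (2 * encode σ + 1)) (xT h T) n = Part.some (it n 1) := by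
      intro n
      rw [phi_odd hh, if_pos hT]
    exact InO.lim hφ (fun n => it_mem InO.one n) (fun n => LtO.succ (it_mem InO.one n))

include hh in
theorem kleeneO_inj {T T' : List ℕ → Bool} (hTT : kleeneO φ (xT h T) = kleeneO φ (xT h T')) :
    T = T' := by
  funext σ
  have h1 := congrFun hTT (3 * 5 ^ h (2 * encode σ + 1))
  unfold kleeneO at h1
  have h2 : InO φ (xT h T) (3 * 5 ^ h (2 * encode σ + 1)) ↔
      InO φ (xT h T') (3 * 5 ^ h (2 * encode σ + 1)) := decide_eq_decide.1 h1
  rw [inO_odd hh, inO_odd hh] at h2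
  exact Bool.eq_iff_iff.2 h2

end

end Pool.Agent.Q205.KO
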